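import Mathlib
import Pool.Agent.R366.HE.Sq

set_option autoImplicit false

/-!
# Forms with bounded coefficients and a given value at one point of the plane
-/

namespace Pool.Agent.R465.PC

open Pool.Agent.R366.HE
open scoped Classical

/-- the number of binary forms with bounded coefficients and a given value at `(u, v)` -/
lemma edge (k : ℕ) (u v : ℤ) (hu : u ≠ 0) (huv : |v| ≤ |u|) {H : ℝ} (hH : 0 ≤ H) (w : ℤ)
    (T : Finset (Fin (k + 1) → ℤ)) (hT : ∀ c ∈ T, bin k c ![u, v] = w ∧ ∀ i, |(c i : ℝ)| ≤ H) :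
    (T.card : ℝ) ≤ 1 + ((2 * k + 8) * (H * (Int.gcd u v : ℝ) / |(u : ℝ)|)) ^ k := by
  set g : ℕ := Int.gcd u v with hg
  have hg0 : 0 < g := Int.gcd_pos_of_ne_zero_left v hu
  have hgz : (0 : ℤ) < g := by exact_mod_cast hg0
  have hgr : (0 : ℝ) < g := by exact_mod_cast hg0
  obtain ⟨u', hu'⟩ : (g : ℤ) ∣ u := Int.gcd_dvd_left ..
  obtain ⟨v', hv'⟩ : (g : ℤ) ∣ v := Int.gcd_dvd_right ..
  have hcop : IsCoprime u' v' := by
    rw [Int.isCoprime_iff_gcd_eq_one]
    have h1 : Int.gcd u v = g * Int.gcd u' v' := by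
      rw [hu', hv', Int.gcd_mul_left, Int.natAbs_natCast]
    rw [← hg] at h1
    exact Nat.eq_of_mul_eq_mul_left hg0 (by rw [← h1, mul_one])
  have hu'0 : u' ≠ 0 := by
    rintro rfl
    exact hu (by rw [hu', mul_zero])
  have hle : |v'| ≤ |u'| := by
    rw [hu', hv', abs_mul, abs_mul] at huv
    exact le_of_mul_le_mul_left huv (by rw [abs_of_pos hgz]; exact hgz)
  have hbin : ∀ c : Fin (k + 1) → ℤ, bin k c ![u, v] = (g : ℤ) ^ k * bin k c ![u', v'] := by
    intro c
    unfold bin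
    rw [Finset.mul_sum]
    refine Finset.sum_congr rfl fun i _ => ?_
    have hi : (i : ℕ) + (k - i) = k := by have := i.2; omega
    have h1 : (g : ℤ) ^ k = (g : ℤ) ^ (i : ℕ) * (g : ℤ) ^ (k - (i : ℕ)) := by rw [← pow_add, hi]
    simp only [Matrix.cons_val_zero, Matrix.cons_val_one]
    rw [hu', hv', mul_pow, mul_pow, h1]
    ring
  have hgk : (g : ℤ) ^ k ≠ 0 := by positivity
  have hT' : ∀ c ∈ T, bin k c ![u', v'] = w / (g : ℤ) ^ k ∧ ∀ i, |(c i : ℝ)| ≤ H := by
    intro c hc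
    refine ⟨?_, (hT c hc).2⟩
    rw [← (hT c hc).1, hbin, Int.mul_ediv_cancel_left _ hgk]
  have hA : |(u' : ℝ)| = ((max |(![u', v'] : Fin 2 → ℤ) 0| |(![u', v'] : Fin 2 → ℤ) 1| : ℤ) : ℝ) := by
    simp only [Matrix.cons_val_zero, Matrix.cons_val_one]
    rw [max_eq_left hle, Int.cast_abs]
  have hA1 : (1 : ℝ) ≤ |(u' : ℝ)| := by
    have h1 : (1 : ℤ) ≤ |u'| := Int.one_le_abs hu'0
    exact_mod_cast h1
  have hur : |(u : ℝ)| = g * |(u' : ℝ)| := by
    rw [hu']
    push_cast
    rw [abs_mul, abs_of_pos hgr]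
  have hAg : H * (g : ℝ) / |(u : ℝ)| = H / |(u' : ℝ)| := by
    rw [hur]
    field_simp
  rw [hAg]
  have hpos : 0 ≤ ((2 * (k : ℝ) + 8) * (H / |(u' : ℝ)|)) ^ k := by positivity
  by_cases hcase : |(u' : ℝ)| ≤ 2 * H
  · have := count_value ![u', v'] (by simpa using hcop) hA hA1 hcase (w / (g : ℤ) ^ k) T hT'
    linarith
  · push Not at hcase
    have h1 : T.card ≤ 1 := by
      rw [Finset.card_le_one]
      intro c hc c' hc'
      by_contra hne
      have h0 : bin k (fun i => c i - c' i) ![u', v'] = 0 := by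
        rw [bin_sub, (hT' c hc).1, (hT' c' hc').1, sub_self]
      obtain ⟨i, hi⟩ := short ![u', v'] (by simpa using hcop) (fun i => c i - c' i) (by
        intro h2
        apply hne
        funext i
        have := congrFun h2 i
        simp only [Pi.zero_apply] at this
        linarith) h0
      have h3 : ((max |(![u', v'] : Fin 2 → ℤ) 0| |(![u', v'] : Fin 2 → ℤ) 1| : ℤ) : ℝ) ≤
          ((|c i - c' i| : ℤ) : ℝ) := by exact_mod_cast hi
      rw [← hA] at h3
      push_cast at h3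
      have h4 := abs_sub (c i : ℝ) (c' i : ℝ)
      have h5 := (hT c hc).2 i
      have h6 := (hT c' hc').2 i
      linarith
    have h2 : (T.card : ℝ) ≤ 1 := by exact_mod_cast h1
    linarith

end Pool.Agent.R465.PC
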